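import Pool.Agent.Y524F.Defs
import Pool.Agent.Y524G.Defs

/-!
# Trisections with the same core

Group trisections (`Pool.Agent.Y524F.Defs`) describe trisected closed oriented smooth 4-manifolds
(Abrams, Gay, Kirby). The surface group `FreeGroup (Fin g × Bool)` is the fundamental group of the
core minus an open disk.
-/

set_option autoImplicit false

namespace Pool.Agent.T2H18.SC

open Pool.Agent.Y524F Pool.Agent.Y524G

/-- Cyclic relabelling of the three handlebodies (and of the three sectors). The manifold and the
core are unchanged. -/
def rot (T : Triple) : Triple := ⟨T.g, fun i => T.φ (i + 1)⟩

/-- Connected sum of two trisected manifolds, at points of the cores. -/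
def sumT (T U : Triple) : Triple := ⟨T.g + U.g, sumMaps T.φ U.φ⟩

/-- The genus zero trisection of the 4-sphere. -/
def sphere : Triple := ⟨0, fun _ => 1⟩

/-- `SameCore T T'`: the trisections `T` and `T'` of one closed 4-manifold `X` have the same core.
The relation is generated by two geometric operations.

* `rot`: cyclic relabelling of the sectors.
* `sum`: the manifold and the core of a connected sum depend on the pairs (manifold, core) of the
  summands only. Indeed the connected sum is formed by the removal of a standard pair of balls
  `(B⁴, B²)` around a point of each core, and the three sectors meet its boundary `(S³, S¹)` in the
  three lunes of an open book of `S³` with binding the unknot `S¹`; if the labels of one summand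
  are rotated, the lunes have to be matched after the rotation of `S³` around `S¹` by one third of
  a full turn, which is isotopic to the identity relative to `S¹`.

So `SameCore T T'` implies that there is a diffeomorphism between the manifolds of `T` and `T'`
which is the identity on the core. -/
inductive SameCore : Triple → Triple → Prop
  | refl (T : Triple) : SameCore T T
  | symm {T T' : Triple} : SameCore T T' → SameCore T' T
  | trans {T T' T'' : Triple} : SameCore T T' → SameCore T' T'' → SameCore T T''
  | rot (T : Triple) : SameCore T (rot T)
  | sum {T T' U U' : Triple} : SameCore T T' → SameCore U U' →
      SameCore (sumT T U) (sumT T' U')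

/-- The connected sum of copies of `U`, one for each entry of the list; the entries `true` stand
for copies with rotated labels. -/
def many (U : Triple) : List Bool → Triple
  | [] => sphere
  | b :: l => sumT (many U l) (if b then rot U else U)

end Pool.Agent.T2H18.SC
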