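import Pool.Agent.T2H18.SC.Main

/-!
# Arbitrarily many different trisections with the same core
-/

set_option autoImplicit false

namespace Pool.Agent.T2H18.SC

open Pool.Agent.Y524F Pool.Agent.Y524G

theorem final (M : ℕ) : ∃ T : Fin (M + 1) → Triple, (∀ t, (T t).g = 6 * M) ∧
    (∀ t, IsTrisection (T t) (2 * M)) ∧ (∀ s t, SameCore (T s) (T t)) ∧
    ∀ s t, s ≠ t → ¬ WeakIso (T s) (T t) := by
  obtain ⟨n, hn⟩ : ∃ n : ℕ, n = 2 ^ (4 * M + 2) + 1 := ⟨_, rfl⟩
  have hlt : 2 ^ (4 * M + 1) < n := by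
    rw [hn, pow_succ 2 (4 * M + 1)]
    have : 0 < 2 ^ (4 * M + 1) := by positivity
    omega
  have h2n : (2 : ZMod n) * (-2 ^ (4 * M + 1)) = 1 := by
    have h0 : ((n : ℕ) : ZMod n) = 0 := ZMod.natCast_self n
    have h1 : ((n : ℕ) : ZMod n) = ((2 ^ (4 * M + 2) + 1 : ℕ) : ZMod n) :=
      congrArg (Nat.cast : ℕ → ZMod n) hn
    rw [h1] at h0
    push_cast at h0
    rw [pow_succ] at h0
    linear_combination -h0
  have hunit : IsUnit (2 : ZMod n) := IsUnit.of_mul_eq_one _ h2n
  have hcop : IsCoprime (n : ℤ) 2 := by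
    refine ⟨1, -2 ^ (4 * M + 1), ?_⟩
    rw [hn]
    push_cast
    ring
  obtain ⟨f, L, D, hLn, hLm⟩ := real_all (n : ℤ) 2 hcop
  have hU := dat_ind n D hLn hLm
  have hle : ∀ t : Fin (M + 1), t.val ≤ M := fun t => Nat.lt_succ_iff.1 t.isLt
  have hD : ∀ t : Fin (M + 1), Dat n (many ⟨3, ind f⟩ (lst M t.val)).φ (2 * M) (eT M t.val) := by
    intro t
    have h := dat_many (U := ⟨3, ind f⟩) hU (lst M t.val)
    rw [lst_length (hle t), lst_true, lst_false] at h
    exact h
  refine ⟨fun t => many ⟨3, ind f⟩ (lst M t.val), fun t => ?_, fun t => ?_, fun s t => ?_,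
    fun s t hst W => ?_⟩
  · show (many ⟨3, ind f⟩ (lst M t.val)).g = 6 * M
    rw [many_g, lst_length (hle t)]
    show 3 * (2 * M) = 6 * M
    ring
  · exact (hD t).1
  · exact sameCore_many _ _ _ (by rw [lst_length (hle s), lst_length (hle t)])
  · obtain ⟨σ, w, H⟩ := dat_inv (hD s) (hD t) W
    have hs := hle s
    have ht := hle t
    have hne : s.val ≠ t.val := fun h => hst (Fin.ext h)
    have hσ : ∀ i j, i ≠ j → σ i ≠ σ j := fun i j h h' => h (σ.injective h')
    have X : ∀ i j k l : Fin 3, i ≠ j → k ≠ l →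
        eT M s.val i j + eT M t.val (σ k) (σ l) = eT M s.val k l + eT M t.val (σ i) (σ j) := by
      intro i j k l hij hkl
      refine cross hunit hlt ?_ ?_ w (H i j hij) (H k l hkl)
      · have h1 := eT_le M s.val hs i j hij
        have h2 := eT_le M t.val ht (σ k) (σ l) (hσ k l hkl)
        omega
      · have h1 := eT_le M s.val hs k l hkl
        have h2 := eT_le M t.val ht (σ i) (σ j) (hσ i j hij)
        omega
    have X1 := X 0 1 1 2 (by decide) (by decide)
    have X2 := X 0 1 2 0 (by decide) (by decide)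
    rw [eT_01, eT_12] at X1
    rw [eT_01, eT_20 M s.val hs] at X2
    have h01 := hσ 0 1 (by decide)
    have h12 := hσ 1 2 (by decide)
    have h20 := hσ 2 0 (by decide)
    generalize hx : σ 0 = x at *
    generalize hy : σ 1 = y at *
    generalize hz : σ 2 = z at *
    have e1 := eT_01 M t.val
    have e2 := eT_12 M t.val
    have e3 := eT_20 M t.val ht
    have e4 := eT_10 M t.val
    have e5 := eT_21 M t.val
    have e6 := eT_02 M t.val ht
    fin_cases x <;> fin_cases y <;> fin_cases z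
    all_goals first
      | exact absurd rfl h01
      | exact absurd rfl h12
      | exact absurd rfl h20
      | (simp only [Fin.zero_eta, Fin.mk_one, Fin.reduceFinMk] at X1 X2
         simp only [e1, e2, e3, e4, e5, e6] at X1 X2
         omega)

end Pool.Agent.T2H18.SC
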