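import Pool.Agent.T2H18.SC.Defs
import Pool.Agent.Y524G.Det

/-!
# The determinant invariant of weak isomorphism, for all ranks
-/

set_option autoImplicit false

namespace Pool.Agent.T2H18.SC

open Pool.Agent.Y524F Pool.Agent.Y524G

section expo

variable {k : ℕ}

/-- exponent sums -/
def abk (c : Fin k) : FreeGroup (Fin k) →* Multiplicative ℤ :=
  FreeGroup.lift fun x => if x = c then Multiplicative.ofAdd 1 else 1

/-- exponent sums, additive values -/
def exk (c : Fin k) (w : FreeGroup (Fin k)) : ℤ := (abk c w).toAdd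

theorem exk_mul (c : Fin k) (x y : FreeGroup (Fin k)) : exk c (x * y) = exk c x + exk c y := by
  simp [exk]

theorem exk_inv (c : Fin k) (x : FreeGroup (Fin k)) : exk c x⁻¹ = - exk c x := by
  simp [exk]

theorem exk_one (c : Fin k) : exk c 1 = 0 := by simp [exk]

theorem exk_of (c d : Fin k) : exk c (FreeGroup.of d) = if d = c then 1 else 0 := by
  unfold exk abk
  rw [FreeGroup.lift_apply_of]
  split_ifs <;> simp

theorem vl_eqk {n : ℕ} (u : FreeGroup (Fin k) →* Multiplicative (ZMod n)) (w : FreeGroup (Fin k)) :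
    vl u w = ∑ c, (exk c w : ZMod n) * vl u (FreeGroup.of c) := by
  induction w using FreeGroup.induction_on with
  | C1 => simp [vl_one, exk_one]
  | of i => simp [exk_of]
  | inv_of i h =>
    rw [vl_inv, h, ← Finset.sum_neg_distrib]
    refine Finset.sum_congr rfl fun c _ => ?_
    rw [exk_inv]
    push_cast
    ring
  | mul x y hx hy =>
    rw [vl_mul, hx, hy, ← Finset.sum_add_distrib]
    refine Finset.sum_congr rfl fun c _ => ?_
    rw [exk_mul]
    push_cast
    ring

theorem exk_eq (f : FreeGroup (Fin k) →* FreeGroup (Fin k)) (c : Fin k) (w : FreeGroup (Fin k)) :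
    exk c (f w) = ∑ d, exk d w * exk c (f (FreeGroup.of d)) := by
  induction w using FreeGroup.induction_on with
  | C1 => simp [exk_one]
  | of i => simp [exk_of]
  | inv_of i h =>
    rw [map_inv, exk_inv, h, ← Finset.sum_neg_distrib]
    refine Finset.sum_congr rfl fun d _ => ?_
    rw [exk_inv]
    ring
  | mul x y hx hy =>
    rw [map_mul, exk_mul, hx, hy, ← Finset.sum_add_distrib]
    refine Finset.sum_congr rfl fun d _ => ?_
    rw [exk_mul]
    ring

/-- the matrix of an endomorphism on the abelianization -/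
def mat (f : FreeGroup (Fin k) →* FreeGroup (Fin k)) : Matrix (Fin k) (Fin k) ℤ :=
  Matrix.of fun a b => exk a (f (FreeGroup.of b))

theorem mat_mul (E : FreeGroup (Fin k) ≃* FreeGroup (Fin k)) :
    mat E.toMonoidHom * mat E.symm.toMonoidHom = 1 := by
  ext a b
  rw [Matrix.mul_apply]
  have h := exk_eq E.toMonoidHom a (E.symm (FreeGroup.of b))
  have h2 : E.toMonoidHom (E.symm (FreeGroup.of b)) = FreeGroup.of b := E.apply_symm_apply _
  rw [h2, exk_of] at h
  rw [Matrix.one_apply]
  have h3 : (if b = a then (1 : ℤ) else 0) = if a = b then 1 else 0 := by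
    by_cases hab : a = b
    · rw [if_pos hab, if_pos hab.symm]
    · rw [if_neg hab, if_neg (fun h => hab h.symm)]
  rw [← h3, h]
  refine Finset.sum_congr rfl fun d _ => ?_
  exact mul_comm _ _

theorem det_mat (E : FreeGroup (Fin k) ≃* FreeGroup (Fin k)) :
    (mat E.toMonoidHom).det = 1 ∨ (mat E.toMonoidHom).det = -1 := by
  have h := congrArg Matrix.det (mat_mul E)
  rw [Matrix.det_mul, Matrix.det_one] at h
  exact Int.eq_one_or_neg_one_of_mul_eq_one h

/-- the matrix of values of `k` characters on the generators -/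
def vmat {n : ℕ} (u : Fin k → (FreeGroup (Fin k) →* Multiplicative (ZMod n))) :
    Matrix (Fin k) (Fin k) (ZMod n) :=
  Matrix.of fun c b => vl (u c) (FreeGroup.of b)

theorem vmat_comp {n : ℕ} (E : FreeGroup (Fin k) ≃* FreeGroup (Fin k))
    (u v : Fin k → (FreeGroup (Fin k) →* Multiplicative (ZMod n)))
    (h : ∀ c, u c = (v c).comp E.toMonoidHom) :
    (vmat u).det = (vmat v).det ∨ (vmat u).det = -(vmat v).det := by
  have e : vmat u = vmat v * (mat E.toMonoidHom).map (Int.castRingHom (ZMod n)) := by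
    ext c b
    rw [Matrix.mul_apply]
    show vl (u c) (FreeGroup.of b) = _
    have h1 : vl (u c) (FreeGroup.of b) = vl (v c) (E (FreeGroup.of b)) := by
      rw [h c]
      rfl
    rw [h1, vl_eqk]
    refine Finset.sum_congr rfl fun d _ => ?_
    exact mul_comm _ _
  have hd : ((mat E.toMonoidHom).map (Int.castRingHom (ZMod n))).det =
      ((mat E.toMonoidHom).det : ZMod n) := by
    have := RingHom.map_det (Int.castRingHom (ZMod n)) (mat E.toMonoidHom)
    rw [← RingHom.mapMatrix_apply, ← this]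
    rfl
  rw [e, Matrix.det_mul, hd]
  rcases det_mat E with h1 | h1
  · left
    rw [h1]
    simp
  · right
    rw [h1]
    simp

end expo

/-- the invariance, for a family of characters -/
theorem fam_inv {n g g' k : ℕ} {ι : Type} (φ : Fin 3 → (Fg g →* FreeGroup (Fin g)))
    (φ' : Fin 3 → (Fg g' →* FreeGroup (Fin g'))) (hbd : ∀ i, φ i (bd g) = 1)
    (hbd' : ∀ i, φ' i (bd g') = 1) (W : WeakIsoMaps φ φ')
    (s : ι → (Fg g' →* Multiplicative (ZMod n))) (hs : ∀ c i, (φ' i).ker ≤ (s c).ker) :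
    ∃ (σ : Equiv.Perm (Fin 3)) (t : ι → (Fg g →* Multiplicative (ZMod n))),
      (∀ c i, (φ i).ker ≤ (t c).ker) ∧
      ∀ i j, ∀ (L : Fg g →* FreeGroup (Fin k)) (L' : Fg g' →* FreeGroup (Fin k)),
        Function.Surjective L → Function.Surjective L' →
        L.ker = (φ i).ker ⊔ (φ j).ker → L'.ker = (φ' (σ i)).ker ⊔ (φ' (σ j)).ker →
        ∃ E : FreeGroup (Fin k) ≃* FreeGroup (Fin k),
        ∀ (c : ι) (u v : FreeGroup (Fin k) →* Multiplicative (ZMod n)),
          (∀ x, u (L x) = t c x) → (∀ y, v (L' y) = s c y) → u = v.comp E.toMonoidHom := by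
  obtain ⟨σ, Q, _, p, p', hp, hp', hk, hk', H⟩ := W
  have hkφ : ∀ i, p.ker ≤ (φ i).ker := by
    intro i
    rw [hk]
    apply Subgroup.normalClosure_le_normal
    intro x hx
    rw [Set.mem_singleton_iff] at hx
    subst hx
    exact hbd i
  have hkφ' : ∀ i, p'.ker ≤ (φ' i).ker := by
    intro i
    rw [hk']
    apply Subgroup.normalClosure_le_normal
    intro x hx
    rw [Set.mem_singleton_iff] at hx
    subst hx
    exact hbd' i
  have hS : ∀ c, ∃ S : Q →* Multiplicative (ZMod n), ∀ x, S (p' x) = s c x :=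
    fun c => exists_factor p' (s c) hp' ((hkφ' 0).trans (hs c 0))
  choose S hS using hS
  refine ⟨σ, fun c => (S c).comp p, ?_, ?_⟩
  · intro c i x hx
    obtain ⟨y, hy⟩ := hp' (p x)
    have h1 := (H i x y hy.symm).1 hx
    have h2 := hs c (σ i) h1
    rw [MonoidHom.mem_ker] at h2 ⊢
    rw [MonoidHom.comp_apply, ← hy, hS, h2]
  · intro i j L L' hL hL' hLk hLk'
    obtain ⟨Lb, hLb⟩ := exists_factor p' L' hp' (by
      rw [hLk']
      exact (hkφ' (σ i)).trans le_sup_left)
    have hker : L.ker = (Lb.comp p).ker := by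
      apply le_antisymm
      · rw [hLk, sup_le_iff]
        constructor
        · intro x hx
          obtain ⟨y, hy⟩ := hp' (p x)
          have h1 : y ∈ (φ' (σ i)).ker := (H i x y hy.symm).1 hx
          have h2 : y ∈ L'.ker := by rw [hLk']; exact Subgroup.mem_sup_left h1
          rw [MonoidHom.mem_ker] at h2 ⊢
          rw [MonoidHom.comp_apply, ← hy, hLb, h2]
        · intro x hx
          obtain ⟨y, hy⟩ := hp' (p x)
          have h1 : y ∈ (φ' (σ j)).ker := (H j x y hy.symm).1 hx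
          have h2 : y ∈ L'.ker := by rw [hLk']; exact Subgroup.mem_sup_right h1
          rw [MonoidHom.mem_ker] at h2 ⊢
          rw [MonoidHom.comp_apply, ← hy, hLb, h2]
      · intro x hx
        obtain ⟨y, hy⟩ := hp' (p x)
        have h1 : y ∈ L'.ker := by
          rw [MonoidHom.mem_ker] at hx ⊢
          rw [← hLb, hy]
          exact hx
        rw [hLk', Subgroup.mem_sup_of_normal_right] at h1
        obtain ⟨c, hc, d, hd, hcd⟩ := h1
        obtain ⟨xc, hxc⟩ := hp (p' c)
        obtain ⟨xd, hxd⟩ := hp (p' d)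
        have h2 : xc ∈ (φ i).ker := (H i xc c hxc).2 hc
        have h3 : xd ∈ (φ j).ker := (H j xd d hxd).2 hd
        have h4 : (xc * xd)⁻¹ * x ∈ p.ker := by
          rw [MonoidHom.mem_ker, map_mul, map_inv, map_mul, hxc, hxd, ← map_mul, hcd, hy,
            inv_mul_cancel]
        have h5 : (xc * xd)⁻¹ * x ∈ (φ i).ker := hkφ i h4
        rw [hLk]
        have h6 : x = xc * xd * ((xc * xd)⁻¹ * x) := by group
        rw [h6]
        exact mul_mem (mul_mem (Subgroup.mem_sup_left h2) (Subgroup.mem_sup_right h3))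
          (Subgroup.mem_sup_left h5)
    have hsurj : Function.Surjective (Lb.comp p) := by
      intro z
      obtain ⟨y, hy⟩ := hL' z
      obtain ⟨x, hx⟩ := hp (p' y)
      exact ⟨x, by rw [MonoidHom.comp_apply, hx, hLb, hy]⟩
    obtain ⟨E, hE⟩ := exists_equiv L (Lb.comp p) hL hsurj hker
    refine ⟨E, fun c u v hu hv => ?_⟩
    apply MonoidHom.ext
    intro z
    obtain ⟨x, rfl⟩ := hL z
    obtain ⟨y, hy⟩ := hp' (p x)
    have hxx : ((S c).comp p) x = S c (p x) := rfl
    rw [hu, hxx, ← hy, hS, ← hv, ← hLb, hy]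
    exact congrArg v (hE x).symm

/-- a sector together with the values at `k` elements; the product of the exponents is `2 ^ e` -/
def SecE {g k : ℕ} (φ : Fin 3 → (Fg g →* FreeGroup (Fin g))) (A : Fin k → Fg g) (i j : Fin 3)
    (e : ℕ) : Prop :=
  ∃ L : Fg g →* FreeGroup (Fin k), Function.Surjective L ∧ L.ker = (φ i).ker ⊔ (φ j).ker ∧
    ∃ α : Fin k → ℤ, (∀ b, L (A b) = FreeGroup.of b ^ α b) ∧ ∏ b, α b = 2 ^ e

/-- the determinant of the values of `k` characters at `k` elements -/
def dt {n g k : ℕ} (s : Fin k → (Fg g →* Multiplicative (ZMod n))) (A : Fin k → Fg g) : ZMod n :=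
  (Matrix.of fun c b => vl (s c) (A b)).det

theorem dt_eq {n g k : ℕ} (s : Fin k → (Fg g →* Multiplicative (ZMod n))) (A : Fin k → Fg g)
    (L : Fg g →* FreeGroup (Fin k)) (α : Fin k → ℤ) (hA : ∀ b, L (A b) = FreeGroup.of b ^ α b)
    {e : ℕ} (he : ∏ b, α b = 2 ^ e)
    (u : Fin k → (FreeGroup (Fin k) →* Multiplicative (ZMod n))) (h : ∀ c x, u c (L x) = s c x) :
    dt s A = 2 ^ e * (vmat u).det := by
  have h1 : (Matrix.of fun c b => vl (s c) (A b)) =
      vmat u * Matrix.diagonal (fun b => (α b : ZMod n)) := by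
    ext c b
    rw [Matrix.mul_diagonal]
    show vl (s c) (A b) = vl (u c) (FreeGroup.of b) * α b
    rw [mul_comm, ← vl_zpow, ← hA]
    unfold vl
    rw [h]
  unfold dt
  rw [h1, Matrix.det_mul, Matrix.det_diagonal, mul_comm]
  congr 1
  have h2 := congrArg (fun z : ℤ => (z : ZMod n)) he
  push_cast at h2
  exact h2

/-- the data of a trisection which determine the invariant -/
def Dat {g : ℕ} (n : ℕ) (φ : Fin 3 → (Fg g →* FreeGroup (Fin g))) (k : ℕ)
    (e : Fin 3 → Fin 3 → ℕ) : Prop :=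
  IsTri φ k ∧ ∃ A : Fin k → Fg g, (∀ i j, i ≠ j → SecE φ A i j (e i j)) ∧
    ∃ s : Fin k → (Fg g →* Multiplicative (ZMod n)), (∀ c i, (φ i).ker ≤ (s c).ker) ∧
      ∀ c b, vl (s c) (A b) = if c = b then 2 else 0

theorem dat_inv {n k g g' : ℕ} {φ : Fin 3 → (Fg g →* FreeGroup (Fin g))}
    {φ' : Fin 3 → (Fg g' →* FreeGroup (Fin g'))} {e e' : Fin 3 → Fin 3 → ℕ}
    (h : Dat n φ k e) (h' : Dat n φ' k e') (W : WeakIsoMaps φ φ') :
    ∃ (σ : Equiv.Perm (Fin 3)) (w : ZMod n), ∀ i j, i ≠ j →
      (w * 2 ^ e' (σ i) (σ j) = 2 ^ e i j * 2 ^ k ∨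
        w * 2 ^ e' (σ i) (σ j) = -(2 ^ e i j * 2 ^ k)) := by
  obtain ⟨htri, A, hA, -⟩ := h
  obtain ⟨htri', A', hA', s, hs, hsv⟩ := h'
  obtain ⟨σ, t, ht, H⟩ := fam_inv (k := k) φ φ' htri.2.1 htri'.2.1 W s hs
  refine ⟨σ, dt t A, fun i j hij => ?_⟩
  have hdt : dt s A' = 2 ^ k := by
    have h1 : (Matrix.of fun c b => vl (s c) (A' b)) =
        Matrix.diagonal (fun _ : Fin k => (2 : ZMod n)) := by
      ext c b
      show vl (s c) (A' b) = _
      rw [hsv, Matrix.diagonal_apply]
    unfold dt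
    rw [h1, Matrix.det_diagonal, Finset.prod_const, Finset.card_univ, Fintype.card_fin]
  obtain ⟨L, hL, hLk, α, hα, hαp⟩ := hA i j hij
  obtain ⟨L', hL', hLk', α', hα', hαp'⟩ := hA' (σ i) (σ j) (fun h => hij (σ.injective h))
  have hu : ∀ c, ∃ u : FreeGroup (Fin k) →* Multiplicative (ZMod n), ∀ x, u (L x) = t c x :=
    fun c => exists_factor L (t c) hL (by rw [hLk]; exact sup_le (ht c i) (ht c j))
  have hv : ∀ c, ∃ v : FreeGroup (Fin k) →* Multiplicative (ZMod n), ∀ x, v (L' x) = s c x :=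
    fun c => exists_factor L' (s c) hL' (by rw [hLk']; exact sup_le (hs c _) (hs c _))
  choose u hu using hu
  choose v hv using hv
  have e1 := dt_eq t A L α hα hαp u hu
  have e2 := dt_eq s A' L' α' hα' hαp' v hv
  obtain ⟨E, hE⟩ := H i j L L' hL hL' hLk hLk'
  have e3 := vmat_comp E u v (fun c => hE c (u c) (v c) (hu c) (hv c))
  rw [hdt] at e2
  rcases e3 with e3 | e3
  · left
    rw [e1, e3, e2]
    ring
  · right
    rw [e1, e3, e2]
    ring

end Pool.Agent.T2H18.SC
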