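import Pool.Agent.T2H18.SC.Inv
import Pool.Agent.Y524G.Main2

/-!
# Many pairwise different trisections with the same core
-/

set_option autoImplicit false

namespace Pool.Agent.T2H18.SC

open Pool.Agent.Y524F Pool.Agent.Y524G

/-! ### The data of sums and relabellings -/

theorem SecE.symm {g k : ℕ} {φ : Fin 3 → (Fg g →* FreeGroup (Fin g))} {A : Fin k → Fg g}
    {i j : Fin 3} {e : ℕ} (h : SecE φ A i j e) : SecE φ A j i e := by
  obtain ⟨L, h1, h2, h3⟩ := h
  exact ⟨L, h1, by rw [h2, sup_comm], h3⟩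

/-- families on a sum of index types -/
def app {X : Type} {k l : ℕ} (a : Fin k → X) (b : Fin l → X) : Fin (k + l) → X :=
  fun x => Fin.addCases a b x

theorem app_L {X : Type} {k l : ℕ} (a : Fin k → X) (b : Fin l → X) (j : Fin k) :
    app a b (Fin.castAdd l j) = a j := by simp [app]

theorem app_R {X : Type} {k l : ℕ} (a : Fin k → X) (b : Fin l → X) (j : Fin l) :
    app a b (Fin.natAdd k j) = b j := by simp [app]

theorem SecE.sum {g h k l : ℕ} {φ : Fin 3 → (Fg g →* FreeGroup (Fin g))}
    {ψ : Fin 3 → (Fg h →* FreeGroup (Fin h))} (hφ : ∀ i, Function.Surjective (φ i))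
    (hψ : ∀ i, Function.Surjective (ψ i)) {A : Fin k → Fg g} {B : Fin l → Fg h} {i j : Fin 3}
    {e e' : ℕ} (h1 : SecE φ A i j e) (h2 : SecE ψ B i j e') :
    SecE (sumMaps φ ψ) (app (fun b => mL g h (A b)) (fun b => mR g h (B b))) i j (e + e') := by
  obtain ⟨L, hL, hLk, α, hα, hαp⟩ := h1
  obtain ⟨L', hL', hLk', β, hβ, hβp⟩ := h2
  refine ⟨sumH L L', sumH_surj _ _ hL hL', ?_, app α β, ?_, ?_⟩
  · rw [sumMaps_eq, sumMaps_eq]
    exact sumH_ker _ _ _ _ _ _ (hφ i) (hφ j) (hψ i) (hψ j) hL hL' hLk hLk'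
  · intro b
    refine Fin.addCases (fun c => ?_) (fun c => ?_) b
    · rw [app_L, app_L, sumH_L, hα, map_zpow, FreeGroup.map.of]
    · rw [app_R, app_R, sumH_R, hβ, map_zpow, FreeGroup.map.of]
  · rw [Fin.prod_univ_add, pow_add, ← hαp, ← hβp]
    congr 1
    · exact Finset.prod_congr rfl fun c _ => app_L α β c
    · exact Finset.prod_congr rfl fun c _ => app_R α β c

theorem dat_sum {n g h k l : ℕ} {φ : Fin 3 → (Fg g →* FreeGroup (Fin g))}
    {ψ : Fin 3 → (Fg h →* FreeGroup (Fin h))} {e e' : Fin 3 → Fin 3 → ℕ} (hT : Dat n φ k e)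
    (hU : Dat n ψ l e') : Dat n (sumMaps φ ψ) (k + l) (fun i j => e i j + e' i j) := by
  obtain ⟨hφ, A, hA, s, hs, hsv⟩ := hT
  obtain ⟨hψ, B, hB, r, hr, hrv⟩ := hU
  obtain ⟨S, hS⟩ : ∃ S : Fin (k + l) → (Fg (g + h) →* Multiplicative (ZMod n)),
      S = app (fun c => cop (s c) 1) (fun c => cop 1 (r c)) := ⟨_, rfl⟩
  obtain ⟨AB, hAB⟩ : ∃ AB : Fin (k + l) → Fg (g + h),
      AB = app (fun b => mL g h (A b)) (fun b => mR g h (B b)) := ⟨_, rfl⟩
  have hSL : ∀ c, S (Fin.castAdd l c) = cop (s c) 1 := fun c => by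
    rw [hS]
    exact app_L _ _ c
  have hSR : ∀ c, S (Fin.natAdd k c) = cop 1 (r c) := fun c => by
    rw [hS]
    exact app_R _ _ c
  have hAL : ∀ c, AB (Fin.castAdd l c) = mL g h (A c) := fun c => by
    rw [hAB]
    exact app_L _ _ c
  have hAR : ∀ c, AB (Fin.natAdd k c) = mR g h (B c) := fun c => by
    rw [hAB]
    exact app_R _ _ c
  refine ⟨isTri_sum _ _ hφ hψ, AB, fun i j hij => ?_, S, ?_, ?_⟩
  · rw [hAB]
    exact SecE.sum hφ.1 hψ.1 (hA i j hij) (hB i j hij)
  · intro c i
    rw [sumMaps_eq]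
    refine Fin.addCases (fun c => ?_) (fun c => ?_) c
    · rw [hSL]
      exact cop_ker _ _ (hφ.1 i) (hψ.1 i) _ _ (hs c i) (fun x _ => rfl)
    · rw [hSR]
      exact cop_ker _ _ (hφ.1 i) (hψ.1 i) _ _ (fun x _ => rfl) (hr c i)
  · intro c b
    refine Fin.addCases (fun c => ?_) (fun c => ?_) c
    · refine Fin.addCases (fun b => ?_) (fun b => ?_) b
      · rw [hSL, hAL]
        have h1 : vl (cop (s c) (1 : Fg h →* Multiplicative (ZMod n))) (mL g h (A b)) =
            vl (s c) (A b) := by
          unfold vl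
          rw [cop_L]
        rw [h1, hsv]
        by_cases hcb : c = b
        · subst hcb
          simp
        · rw [if_neg hcb, if_neg]
          intro h
          exact hcb (Fin.castAdd_injective _ _ h)
      · rw [hSL, hAR]
        have h1 : vl (cop (s c) (1 : Fg h →* Multiplicative (ZMod n))) (mR g h (B b)) = 0 := by
          unfold vl
          rw [cop_R]
          rfl
        rw [h1, if_neg]
        intro h
        have := congrArg Fin.val h
        simp only [Fin.val_castAdd, Fin.val_natAdd] at this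
        have h2 := c.isLt
        omega
    · refine Fin.addCases (fun b => ?_) (fun b => ?_) b
      · rw [hSR, hAL]
        have h1 : vl (cop (1 : Fg g →* Multiplicative (ZMod n)) (r c)) (mL g h (A b)) = 0 := by
          unfold vl
          rw [cop_L]
          rfl
        rw [h1, if_neg]
        intro h
        have := congrArg Fin.val h
        simp only [Fin.val_castAdd, Fin.val_natAdd] at this
        have h2 := b.isLt
        omega
      · rw [hSR, hAR]
        have h1 : vl (cop (1 : Fg g →* Multiplicative (ZMod n)) (r c)) (mR g h (B b)) =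
            vl (r c) (B b) := by
          unfold vl
          rw [cop_R]
        rw [h1, hrv]
        by_cases hcb : c = b
        · subst hcb
          simp
        · rw [if_neg hcb, if_neg]
          intro h
          exact hcb (Fin.natAdd_injective _ _ h)

theorem add_one_ne {i j : Fin 3} (h : i ≠ j) : i + 1 ≠ j + 1 := fun h' => h (add_right_cancel h')

theorem dat_rot {n g k : ℕ} {φ : Fin 3 → (Fg g →* FreeGroup (Fin g))} {e : Fin 3 → Fin 3 → ℕ}
    (hT : Dat n φ k e) : Dat n (fun i => φ (i + 1)) k (fun i j => e (i + 1) (j + 1)) := by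
  obtain ⟨hφ, A, hA, s, hs, hsv⟩ := hT
  exact ⟨isTri_relabel φ hφ (Equiv.addRight 1), A,
    fun i j hij => hA (i + 1) (j + 1) (add_one_ne hij), s, fun c i => hs c (i + 1), hsv⟩

theorem dat_sphere (n : ℕ) : Dat n sphere.φ 0 (fun _ _ => 0) := by
  have hsub : ∀ x y : FreeGroup (Fin 0), x = y := fun x y => Subsingleton.elim x y
  have hk : ∀ f : Fg 0 →* FreeGroup (Fin 0), f.ker = ⊤ := by
    intro f
    rw [eq_top_iff]
    intro x _
    rw [MonoidHom.mem_ker]
    exact hsub _ _
  have hs : ∀ f : Fg 0 →* FreeGroup (Fin 0), Function.Surjective f :=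
    fun f y => ⟨1, hsub _ _⟩
  have hk1 : ∀ i j : Fin 3, (1 : Fg 0 →* FreeGroup (Fin 0)).ker =
      MonoidHom.ker (sphere.φ i) ⊔ MonoidHom.ker (sphere.φ j) := by
    intro i j
    have h1 : (sphere.φ i).ker = ⊤ := hk _
    have h2 : (sphere.φ j).ker = ⊤ := hk _
    rw [h1, h2, hk]
    exact (sup_idem _).symm
  exact ⟨⟨fun i => hs _, fun i => hsub _ _, fun i j _ => ⟨1, hs 1, hk1 i j⟩⟩, fun b => b.elim0,
    fun i j _ => ⟨1, hs 1, hk1 i j, fun b => b.elim0, fun b => b.elim0, by simp⟩,
    fun b => b.elim0, fun c => c.elim0, fun c => c.elim0⟩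

/-- the exponents of the basic trisection -/
def e0 (i j : Fin 3) : ℕ := if (i = 1 ∧ j = 2) ∨ (i = 2 ∧ j = 1) then 0 else 1

theorem sec1_E {g : ℕ} {φ : Fin 3 → (Fg g →* FreeGroup (Fin g))} {A : Fg g} {i j : Fin 3}
    {e : ℕ} (h : Sec1 φ A i j (2 ^ e)) : SecE φ (fun _ : Fin 1 => A) i j e := by
  obtain ⟨L, h1, h2, h3⟩ := h
  refine ⟨L, h1, h2, fun _ => 2 ^ e, fun b => ?_, by simp⟩
  have hb : b = 0 := Subsingleton.elim _ _
  rw [hb]
  exact h3

theorem dat_ind {f : Fg 2 →* FreeGroup (Fin 2)} {L : Fg 2 →* FreeGroup (Fin 1)} (n : ℕ)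
    (D : Datum f L) (hn : L a0 = FreeGroup.of 0 ^ (n : ℤ)) (hm : L a1 = FreeGroup.of 0 ^ (2 : ℤ)) :
    Dat n (ind f) 1 e0 := by
  obtain ⟨χ, hχ, hχv⟩ := exists_chi D n hn hm
  have h01 : SecE (ind f) (fun _ : Fin 1 => FreeGroup.of (1, false)) 0 1 1 :=
    sec1_E (by simpa using sec1_01 D hm)
  have h12 : SecE (ind f) (fun _ : Fin 1 => FreeGroup.of (1, false)) 1 2 0 :=
    sec1_E (by simpa using sec1_12 (f := f))
  have h20 : SecE (ind f) (fun _ : Fin 1 => FreeGroup.of (1, false)) 2 0 1 :=
    sec1_E (by simpa using sec1_20 D hm)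
  refine ⟨isTri_ind D, fun _ => FreeGroup.of (1, false), ?_, fun _ => χ, fun _ i => hχ i, ?_⟩
  · intro i j hij
    fin_cases i <;> fin_cases j
    · exact absurd rfl hij
    · exact h01
    · exact h20.symm
    · exact h01.symm
    · exact absurd rfl hij
    · exact h12
    · exact h20
    · exact h12.symm
    · exact absurd rfl hij
  · intro c b
    have : c = b := Subsingleton.elim _ _
    rw [if_pos this, hχv]
    norm_num

theorem dat_many {n : ℕ} {U : Triple} (hU : Dat n U.φ 1 e0) : ∀ l : List Bool,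
    Dat n (many U l).φ l.length
      (fun i j => l.count true * e0 (i + 1) (j + 1) + l.count false * e0 i j) := by
  intro l
  induction l with
  | nil =>
    have h := dat_sphere n
    have e : (fun i j : Fin 3 => List.count true ([] : List Bool) * e0 (i + 1) (j + 1) +
        List.count false ([] : List Bool) * e0 i j) = fun _ _ => 0 := by
      funext i j
      simp
    rw [e]
    exact h
  | cons b l ih =>
    rcases b with _ | _
    · have h := dat_sum ih hU
      have e : (fun i j : Fin 3 => (l.count true * e0 (i + 1) (j + 1) +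
          l.count false * e0 i j) + e0 i j) = fun i j : Fin 3 =>
          List.count true (false :: l) * e0 (i + 1) (j + 1) +
          List.count false (false :: l) * e0 i j := by
        funext i j
        simp
        ring
      rw [e] at h
      exact h
    · have h := dat_sum ih (dat_rot hU)
      have e : (fun i j : Fin 3 => (l.count true * e0 (i + 1) (j + 1) +
          l.count false * e0 i j) + e0 (i + 1) (j + 1)) = fun i j : Fin 3 =>
          List.count true (true :: l) * e0 (i + 1) (j + 1) +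
          List.count false (true :: l) * e0 i j := by
        funext i j
        simp
        ring
      rw [e] at h
      exact h

theorem sameCore_many (U : Triple) : ∀ l l' : List Bool, l.length = l'.length →
    SameCore (many U l) (many U l') := by
  have h1 : ∀ b b' : Bool, SameCore (if b then rot U else U) (if b' then rot U else U) := by
    intro b b'
    rcases b with _ | _ <;> rcases b' with _ | _
    · exact SameCore.refl _
    · exact SameCore.rot U
    · exact (SameCore.rot U).symm
    · exact SameCore.refl _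
  intro l
  induction l with
  | nil =>
    intro l' h
    have : l' = [] := List.length_eq_zero_iff.1 h.symm
    subst this
    exact SameCore.refl _
  | cons b l ih =>
    intro l' h
    cases l' with
    | nil => simp at h
    | cons b' l' =>
      exact SameCore.sum (ih l' (by simpa using h)) (h1 b b')

theorem many_g (U : Triple) (l : List Bool) : (many U l).g = U.g * l.length := by
  induction l with
  | nil => rfl
  | cons b l ih =>
    have h : (if b then rot U else U).g = U.g := by
      cases b <;> rfl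
    show (many U l).g + (if b then rot U else U).g = _
    rw [ih, h, List.length_cons]
    ring

/-! ### Arithmetic -/

theorem pow_inj {n N a b : ℕ} (hn : 2 ^ (N + 1) < n) (ha : a ≤ N) (hb : b ≤ N)
    (h : (2 : ZMod n) ^ a = 2 ^ b ∨ (2 : ZMod n) ^ a = -2 ^ b) : a = b := by
  have h2 : 2 ^ (N + 1) = 2 * 2 ^ N := by ring
  have ha' : 2 ^ a ≤ 2 ^ N := Nat.pow_le_pow_right (by norm_num) ha
  have hb' : 2 ^ b ≤ 2 ^ N := Nat.pow_le_pow_right (by norm_num) hb
  have hp : 0 < 2 ^ a := by positivity
  rcases h with h | h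
  · have h3 : ((2 ^ a : ℕ) : ZMod n) = ((2 ^ b : ℕ) : ZMod n) := by
      push_cast
      exact h
    rw [ZMod.natCast_eq_natCast_iff] at h3
    have h4 := Nat.ModEq.eq_of_lt_of_lt h3 (by omega) (by omega)
    exact Nat.pow_right_injective (le_refl 2) h4
  · exfalso
    have h3 : ((2 ^ a + 2 ^ b : ℕ) : ZMod n) = 0 := by
      push_cast
      rw [h]
      ring
    rw [ZMod.natCast_eq_zero_iff] at h3
    have h5 : 0 < 2 ^ a + 2 ^ b := by positivity
    have h4 := Nat.le_of_dvd h5 h3
    omega

theorem cross {n N a a' b b' k : ℕ} (h2 : IsUnit (2 : ZMod n)) (hn : 2 ^ (N + 1) < n)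
    (h1 : a + b' ≤ N) (h3 : b + a' ≤ N) (w : ZMod n)
    (ha : w * 2 ^ a' = 2 ^ a * 2 ^ k ∨ w * 2 ^ a' = -(2 ^ a * 2 ^ k))
    (hb : w * 2 ^ b' = 2 ^ b * 2 ^ k ∨ w * 2 ^ b' = -(2 ^ b * 2 ^ k)) : a + b' = b + a' := by
  apply pow_inj hn h1 h3
  have hk : IsUnit ((2 : ZMod n) ^ k) := h2.pow k
  rcases ha with ha | ha <;> rcases hb with hb | hb
  · left
    apply hk.mul_right_cancel
    linear_combination (2 ^ a' : ZMod n) * hb - (2 ^ b' : ZMod n) * ha
  · right
    apply hk.mul_right_cancel
    linear_combination (2 ^ a' : ZMod n) * hb - (2 ^ b' : ZMod n) * ha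
  · right
    apply hk.mul_right_cancel
    linear_combination (2 ^ b' : ZMod n) * ha - (2 ^ a' : ZMod n) * hb
  · left
    apply hk.mul_right_cancel
    linear_combination (2 ^ b' : ZMod n) * ha - (2 ^ a' : ZMod n) * hb

/-- the number of rotated copies is `t` -/
def lst (M t : ℕ) : List Bool := List.replicate t true ++ List.replicate (2 * M - t) false

theorem lst_length {M t : ℕ} (h : t ≤ M) : (lst M t).length = 2 * M := by
  simp [lst]
  omega

theorem lst_true {M t : ℕ} : (lst M t).count true = t := by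
  simp [lst, List.count_replicate]

theorem lst_false {M t : ℕ} : (lst M t).count false = 2 * M - t := by
  simp [lst, List.count_replicate]

theorem e0_01 : e0 0 1 = 1 := by decide
theorem e0_12 : e0 1 2 = 0 := by decide
theorem e0_20 : e0 2 0 = 1 := by decide
theorem e0_10 : e0 1 0 = 1 := by decide
theorem e0_21 : e0 2 1 = 0 := by decide
theorem e0_02 : e0 0 2 = 1 := by decide

/-- the exponents of the trisections `many U (lst M t)` -/
def eT (M t : ℕ) (i j : Fin 3) : ℕ := t * e0 (i + 1) (j + 1) + (2 * M - t) * e0 i j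

theorem eT_01 (M t : ℕ) : eT M t 0 1 = 2 * M - t := by
  have h : e0 (0 + 1) (1 + 1) = 0 := by decide
  rw [eT, h, e0_01]
  omega
theorem eT_10 (M t : ℕ) : eT M t 1 0 = 2 * M - t := by
  have h : e0 (1 + 1) (0 + 1) = 0 := by decide
  rw [eT, h, e0_10]
  omega
theorem eT_12 (M t : ℕ) : eT M t 1 2 = t := by
  have h : e0 (1 + 1) (2 + 1) = 1 := by decide
  rw [eT, h, e0_12]
  omega
theorem eT_21 (M t : ℕ) : eT M t 2 1 = t := by
  have h : e0 (2 + 1) (1 + 1) = 1 := by decide
  rw [eT, h, e0_21]
  omega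
theorem eT_20 (M t : ℕ) (h : t ≤ M) : eT M t 2 0 = 2 * M := by
  have h' : e0 (2 + 1) (0 + 1) = 1 := by decide
  rw [eT, h', e0_20]
  omega
theorem eT_02 (M t : ℕ) (h : t ≤ M) : eT M t 0 2 = 2 * M := by
  have h' : e0 (0 + 1) (2 + 1) = 1 := by decide
  rw [eT, h', e0_02]
  omega

theorem eT_le (M t : ℕ) (h : t ≤ M) (i j : Fin 3) (hij : i ≠ j) : eT M t i j ≤ 2 * M := by
  fin_cases i <;> fin_cases j
  · exact absurd rfl hij
  · exact (eT_01 M t).trans_le (by omega)
  · exact (eT_02 M t h).le
  · exact (eT_10 M t).trans_le (by omega)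
  · exact absurd rfl hij
  · exact (eT_12 M t).trans_le (by omega)
  · exact (eT_20 M t h).le
  · exact (eT_21 M t).trans_le (by omega)
  · exact absurd rfl hij

end Pool.Agent.T2H18.SC
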